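import Pool.Agent.Q7.LK.Stm

/-! # Project LK (helper7), job REC: the law of reciprocity of the `p`-th power residue symbols -/

set_option autoImplicit false

namespace Pool.Agent.Q241.LK

open NumberField IsDedekindDomain
open Pool.Agent.Q283.LQ (Sm)
open Pool.Agent.Q7.LK

variable {F : Type} [Field F] [NumberField F]

theorem vl_one (p : ℕ) (v : HeightOneSpectrum (𝓞 F)) (b : F) (h : v.valuation F b = 1) :
    vl p v b = 0 := by
  unfold vl
  rw [h, WithZero.log_one]
  simp

theorem fin_vl (p : ℕ) (b : F) (hb : b ≠ 0) : {v : HeightOneSpectrum (𝓞 F) | vl p v b ≠ 0}.Finite := by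
  refine ((HeightOneSpectrum.Support.finite (𝓞 F) b).union
    (HeightOneSpectrum.Support.finite (𝓞 F) b⁻¹)).subset ?_
  intro v hv
  by_contra h
  rw [Set.mem_union, not_or] at h
  have h1 : v.valuation F b ≤ 1 := not_lt.1 h.1
  have h2 : v.valuation F b⁻¹ ≤ 1 := not_lt.1 h.2
  have h3 : v.valuation F b = 1 := by
    refine le_antisymm h1 ?_
    rw [map_inv₀] at h2
    have h4 : v.valuation F b ≠ 0 := by
      rw [Ne, Valuation.zero_iff]
      exact hb
    exact (inv_le_one₀ (zero_lt_iff.2 h4)).1 h2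
  exact hv (vl_one p v b h3)

theorem rec : S_BAS → S_HS2 → S_REC := by
  intro _ hH p _ hp F _ _ ζ hζ y hy b c hb hc huv hN
  obtain ⟨t, h1, h2, h3, h4, h5, -⟩ := hH p hp F ζ hζ
  have hD : ∀ v : HeightOneSpectrum (𝓞 F), ¬ Sm y v → ¬ Dp p v :=
    fun v hv hd => hv ⟨p, Fact.out, hy, hd⟩
  have key : ∀ v : HeightOneSpectrum (𝓞 F), ¬ Sm y v →
      vl p v b * sy p ζ v c - vl p v c * sy p ζ v b = t v b c := by
    intro v hv
    rcases huv v hv with h | h
    · rw [h1 v b c hb hc, h5 v (hD v hv) b hb (vl_one p v b h) c hc, vl_one p v b h]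
      ring
    · rw [h5 v (hD v hv) c hc (vl_one p v c h) b hb, vl_one p v c h]
      ring
  have hfin : {v : HeightOneSpectrum (𝓞 F) | ¬ Sm y v ∧ (vl p v b ≠ 0 ∨ vl p v c ≠ 0)}.Finite := by
    refine ((fin_vl p b hb).union (fin_vl p c hc)).subset ?_
    rintro v ⟨_, h | h⟩
    · exact Or.inl h
    · exact Or.inr h
  refine ⟨hfin, ?_⟩
  have hs := (h3 b c hb hc).2
  have hz : ∑ᶠ v : {v : HeightOneSpectrum (𝓞 F) // ¬ Sm y v}, t v.1 b c = 0 := by
    have e1 : ∑ᶠ v : {v : HeightOneSpectrum (𝓞 F) // ¬ Sm y v}, t v.1 b c =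
        ∑ᶠ v ∈ {v : HeightOneSpectrum (𝓞 F) | ¬ Sm y v}, t v b c :=
      finsum_set_coe_eq_finsum_mem (f := fun v => t v b c) {v : HeightOneSpectrum (𝓞 F) | ¬ Sm y v}
    rw [e1, finsum_mem_def, Set.indicator_eq_self.2]
    · exact hs
    · intro v hv hS
      exact hv (h4 v b c (hN.2 v hS) hc)
  have f1 : (Function.support fun v : {v : HeightOneSpectrum (𝓞 F) // ¬ Sm y v} =>
      vl p v.1 b * sy p ζ v.1 c).Finite := by
    refine Set.Finite.subset ((fin_vl p b hb).preimage Subtype.val_injective.injOn) ?_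
    intro v hv h
    exact hv (by simp only [h, zero_mul])
  have f2 : (Function.support fun v : {v : HeightOneSpectrum (𝓞 F) // ¬ Sm y v} =>
      vl p v.1 c * sy p ζ v.1 b).Finite := by
    refine Set.Finite.subset ((fin_vl p c hc).preimage Subtype.val_injective.injOn) ?_
    intro v hv h
    exact hv (by simp only [h, zero_mul])
  rw [← sub_eq_zero, ← finsum_sub_distrib f1 f2, ← hz]
  exact finsum_congr fun v => key v.1 v.2

end Pool.Agent.Q241.LK
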